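import Pool.Agent.helper58.CRO.SpecH

/-!
# Row cro:HMA (MP_5bf3c3_gt): the trace inequality with a common eigenvector
-/

set_option autoImplicit false

open scoped Manifold ContDiff Topology ENNReal
open MeasureTheory Set

noncomputable section

namespace Pool.Agent.CRO

private theorem HMA_amgm {n : ℕ} (hn : 2 ≤ n) {M : Matrix (Fin n) (Fin n) ℝ} (hM : M.PosSemidef) (μ : ℝ)
    (hμ : 0 < μ) (u : Fin n → ℝ) (hu : u ≠ 0) (hMu : M.mulVec u = μ • u) :
    ((n : ℝ) - 1) * (M.det / μ) ^ ((1 : ℝ) / ((n : ℝ) - 1)) ≤ M.trace - μ := by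
  have hn0 : (0 : ℝ) < (n : ℝ) - 1 := by
    have : (2 : ℝ) ≤ n := by exact_mod_cast hn
    linarith
  have hH := hM.isHermitian
  have hev : ∀ i, 0 ≤ hH.eigenvalues i := fun i => hM.eigenvalues_nonneg i
  have h1 : M.det = ∏ i, hH.eigenvalues i := by
    rw [hH.det_eq_prod_eigenvalues]
    simp
  have h2 : M.trace = ∑ i, hH.eigenvalues i := by
    rw [hH.trace_eq_sum_eigenvalues]
    simp
  -- the eigenvalue
  have hmem : μ ∈ spectrum ℝ M := by
    rw [spectrum.mem_iff]
    intro hun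
    apply hu
    have hinj := Matrix.mulVec_injective_of_isUnit hun
    apply hinj
    rw [Matrix.mulVec_zero, Matrix.sub_mulVec, hMu, Algebra.algebraMap_eq_smul_one, Matrix.smul_mulVec,
      Matrix.one_mulVec, sub_self]
  rw [hH.spectrum_real_eq_range_eigenvalues] at hmem
  obtain ⟨i0, hi0⟩ := hmem
  have hprod : M.det / μ = ∏ i ∈ (Finset.univ : Finset (Fin n)).erase i0, hH.eigenvalues i := by
    rw [h1, ← Finset.mul_prod_erase Finset.univ _ (Finset.mem_univ i0), hi0]
    field_simp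
  have hsum : M.trace - μ = ∑ i ∈ (Finset.univ : Finset (Fin n)).erase i0, hH.eigenvalues i := by
    rw [h2, ← Finset.add_sum_erase Finset.univ _ (Finset.mem_univ i0), hi0]
    ring
  have hcard : (((Finset.univ : Finset (Fin n)).erase i0).card : ℝ) = (n : ℝ) - 1 := by
    rw [Finset.card_erase_of_mem (Finset.mem_univ i0), Finset.card_univ, Fintype.card_fin,
      Nat.cast_sub (by omega)]
    norm_num
  have h3 := Real.geom_mean_le_arith_mean_weighted ((Finset.univ : Finset (Fin n)).erase i0)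
    (fun _ => (1 : ℝ) / ((n : ℝ) - 1)) (fun i => hH.eigenvalues i) (fun _ _ => by positivity)
    (by rw [Finset.sum_const, nsmul_eq_mul, hcard]; field_simp) (fun i _ => hev i)
  rw [Real.finsetProd_rpow _ _ (fun i _ => hev i), ← Finset.mul_sum] at h3
  rw [hprod, hsum]
  calc ((n : ℝ) - 1) * (∏ i ∈ (Finset.univ : Finset (Fin n)).erase i0, hH.eigenvalues i) ^ ((1 : ℝ) / ((n : ℝ) - 1)) ≤
      ((n : ℝ) - 1) * (1 / ((n : ℝ) - 1) * ∑ i ∈ (Finset.univ : Finset (Fin n)).erase i0, hH.eigenvalues i) :=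
        mul_le_mul_of_nonneg_left h3 hn0.le
    _ = ∑ i ∈ (Finset.univ : Finset (Fin n)).erase i0, hH.eigenvalues i := by field_simp

private theorem HMA_pos {n : ℕ} {A : En n →L[ℝ] En n} (hA : PosDefOp A) :
    (LinearMap.toMatrix (EuclideanSpace.basisFun (Fin n) ℝ).toBasis
      (EuclideanSpace.basisFun (Fin n) ℝ).toBasis (A : En n →ₗ[ℝ] En n)).PosSemidef := by
  rw [LinearMap.posSemidef_toMatrix_iff]
  refine ⟨fun v w => hA.1 v w, fun v => ?_⟩
  by_cases hv : v = 0
  · simp [hv]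
  · have := hA.2 v hv
    simpa using this.le

private theorem HMA_det {n : ℕ} {A : En n →L[ℝ] En n} (hA : PosDefOp A) : A.det ≠ 0 := by
  intro h
  have h1 : LinearMap.det (A : En n →ₗ[ℝ] En n) = 0 := h
  have h2 := LinearMap.bot_lt_ker_of_det_eq_zero h1
  obtain ⟨v, hv, hv0⟩ := (Submodule.ne_bot_iff _).mp h2.ne'
  have h3 := hA.2 v hv0
  have h4 : A v = 0 := hv
  rw [h4, inner_zero_left] at h3
  exact lt_irrefl _ h3

open scoped MatrixOrder in
private theorem HMA_mat {n : ℕ} (hn : 2 ≤ n) {A S : Matrix (Fin n) (Fin n) ℝ} (hA : A.PosSemidef)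
    (hS : S.PosSemidef) (hSd : S.det ≠ 0) (E F : Fin n → ℝ) (hF : F ≠ 0) (α σ : ℝ) (hα : 0 < α) (hσ : 0 < σ)
    (h1 : A.mulVec E = α • F) (h2 : S.mulVec E = σ • F) :
    ((n : ℝ) - 1) * ((A.det / α) / (S.det / σ)) ^ ((1 : ℝ) / ((n : ℝ) - 1)) ≤ (S⁻¹ * A).trace - α / σ := by
  obtain ⟨y, hy⟩ := CStarAlgebra.nonneg_iff_eq_star_mul_self.mp hS.inv.nonneg
  rw [Matrix.star_eq_conjTranspose] at hy
  have hM : (y * A * y.conjTranspose).PosSemidef := hA.mul_mul_conjTranspose_same y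
  have hSu : IsUnit S.det := isUnit_iff_ne_zero.mpr hSd
  have hydet : y.det ≠ 0 := by
    intro h
    have h3 : (S⁻¹).det = 0 := by rw [hy, Matrix.det_mul, h, mul_zero]
    rw [Matrix.det_nonsing_inv, Ring.inverse_eq_inv'] at h3
    exact (inv_ne_zero hSd) h3
  have hyu : IsUnit y := (Matrix.isUnit_iff_isUnit_det y).2 (isUnit_iff_ne_zero.mpr hydet)
  have hu : y.mulVec F ≠ 0 := by
    intro h
    apply hF
    apply Matrix.mulVec_injective_of_isUnit hyu
    rw [h, Matrix.mulVec_zero]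
  have hSF : S⁻¹.mulVec F = σ⁻¹ • E := by
    have h3 : F = σ⁻¹ • S.mulVec E := by rw [h2, smul_smul, inv_mul_cancel₀ hσ.ne', one_smul]
    rw [h3, Matrix.mulVec_smul, Matrix.mulVec_mulVec, Matrix.nonsing_inv_mul _ hSu, Matrix.one_mulVec]
  have hMu : (y * A * y.conjTranspose).mulVec (y.mulVec F) = (α / σ) • y.mulVec F := by
    rw [Matrix.mulVec_mulVec, Matrix.mul_assoc, ← hy, ← Matrix.mulVec_mulVec, hSF, Matrix.mulVec_smul,
      ← Matrix.mulVec_mulVec, h1, Matrix.mulVec_smul, smul_smul, div_eq_inv_mul]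
  have key := HMA_amgm hn hM (α / σ) (div_pos hα hσ) (y.mulVec F) hu hMu
  have h3 : (y * A * y.conjTranspose).det = A.det / S.det := by
    have h4 : (S⁻¹).det = y.conjTranspose.det * y.det := by rw [hy, Matrix.det_mul]
    rw [Matrix.det_nonsing_inv, Ring.inverse_eq_inv'] at h4
    rw [Matrix.det_mul, Matrix.det_mul, div_eq_mul_inv, h4]
    ring
  have h5 : (y * A * y.conjTranspose).trace = (S⁻¹ * A).trace := by
    rw [hy, Matrix.mul_assoc, Matrix.trace_mul_comm, Matrix.mul_assoc, Matrix.trace_mul_comm]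
  have h6 : (A.det / α) / (S.det / σ) = A.det / S.det / (α / σ) := by
    field_simp
  rw [h3, h5] at key
  rw [h6]
  exact key

theorem HMA : HMA_stmt := by
  intro n hn A S Si e f α σ hA hS hSi he hα hσ hAe hSe
  set b := (EuclideanSpace.basisFun (Fin n) ℝ).toBasis with hb
  have hAp := HMA_pos hA
  have hSp := HMA_pos hS
  rw [← hb] at hAp hSp
  have hAd : (LinearMap.toMatrix b b (A : En n →ₗ[ℝ] En n)).det = A.det := LinearMap.det_toMatrix b _
  have hSd : (LinearMap.toMatrix b b (S : En n →ₗ[ℝ] En n)).det = S.det := LinearMap.det_toMatrix b _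
  have hS0 : S.det ≠ 0 := HMA_det hS
  have hf : f ≠ 0 := by
    intro h
    rw [h, smul_zero] at hSe
    have := hS.2 e he
    rw [hSe, inner_zero_left] at this
    exact lt_irrefl _ this
  have hF : (b.repr f : Fin n → ℝ) ≠ 0 := by
    intro h
    apply hf
    apply b.repr.injective
    rw [map_zero]
    exact DFunLike.coe_injective h
  have e1 : (LinearMap.toMatrix b b (A : En n →ₗ[ℝ] En n)).mulVec (b.repr e) = α • (b.repr f : Fin n → ℝ) := by
    rw [LinearMap.toMatrix_mulVec_repr]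
    have : (A : En n →ₗ[ℝ] En n) e = α • f := hAe
    rw [this, map_smul]
    rfl
  have e2 : (LinearMap.toMatrix b b (S : En n →ₗ[ℝ] En n)).mulVec (b.repr e) = σ • (b.repr f : Fin n → ℝ) := by
    rw [LinearMap.toMatrix_mulVec_repr]
    have : (S : En n →ₗ[ℝ] En n) e = σ • f := hSe
    rw [this, map_smul]
    rfl
  have key := HMA_mat hn hAp hSp (by rw [hSd]; exact hS0) (b.repr e) (b.repr f) hF α σ hα hσ e1 e2
  rw [hAd, hSd] at key
  have hinv : LinearMap.toMatrix b b (Si : En n →ₗ[ℝ] En n) = (LinearMap.toMatrix b b (S : En n →ₗ[ℝ] En n))⁻¹ := by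
    symm
    apply Matrix.inv_eq_left_inv
    rw [← LinearMap.toMatrix_comp b b b]
    have : (Si : En n →ₗ[ℝ] En n).comp (S : En n →ₗ[ℝ] En n) = LinearMap.id := by
      ext1 v
      exact hSi v
    rw [this, LinearMap.toMatrix_id]
  have htr : LinearMap.trace ℝ (En n) ((Si.comp A : En n →L[ℝ] En n) : En n →ₗ[ℝ] En n) =
      ((LinearMap.toMatrix b b (S : En n →ₗ[ℝ] En n))⁻¹ * LinearMap.toMatrix b b (A : En n →ₗ[ℝ] En n)).trace := by
    have h1 : ((Si.comp A : En n →L[ℝ] En n) : En n →ₗ[ℝ] En n) =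
        (Si : En n →ₗ[ℝ] En n).comp (A : En n →ₗ[ℝ] En n) := rfl
    rw [h1, LinearMap.trace_eq_matrix_trace ℝ b, LinearMap.toMatrix_comp b b b, hinv]
  rw [htr]
  exact key

end Pool.Agent.CRO
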