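import Pool.Agent.helper58.CRO.SpecJ

/-!
# Row cro:JB2 (MP_5bf3c3_gt): the mean of 1 - tr1
-/

set_option autoImplicit false

open scoped Manifold ContDiff Topology ENNReal
open MeasureTheory Set

noncomputable section

namespace Pool.Agent.CRO

private theorem JB2_fp (n : ℕ) (t : ℝ) : HasDerivAt (FPc n) (Real.sin t ^ (n - 2)) t := by
  have hc : Continuous fun s : ℝ => Real.sin s ^ (n - 2) := Real.continuous_sin.pow _
  exact intervalIntegral.integral_hasDerivAt_right (hc.intervalIntegrable _ _)
    (hc.stronglyMeasurableAtFilter _ _) hc.continuousAt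

private theorem JB2_rec (k : ℕ) : ∫ t in (0 : ℝ)..(Real.pi / 2), Real.sin t ^ (k + 2) =
    ((k : ℝ) + 1) / ((k : ℝ) + 2) * ∫ t in (0 : ℝ)..(Real.pi / 2), Real.sin t ^ k := by
  rw [integral_sin_pow]
  rw [Real.sin_zero, Real.cos_pi_div_two]
  rw [zero_pow (by omega)]
  ring

private theorem JB2_cW (n : ℕ) : 0 < cW n := by
  unfold cW
  refine intervalIntegral.intervalIntegral_pos_of_pos_on ?_ ?_ (by positivity)
  · exact (Real.continuous_sin.pow _).intervalIntegrable _ _
  · intro t ht
    exact pow_pos (Real.sin_pos_of_pos_of_lt_pi ht.1 (by linarith [ht.2, Real.pi_pos])) _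

theorem JB2 (h1 : JB1_stmt) : JB2_stmt := by
  intro n hn Ω l hΩ hl
  have hcW := JB2_cW n
  have hnR : (2 : ℝ) ≤ n := by exact_mod_cast hn
  set x := Ω / l with hx
  have hx0 : 0 < x := by positivity
  rcases le_or_gt 1 x with hx1 | hx1
  · -- trivial case
    have e3 : Real.sqrt (1 - x ^ 2) = 0 := Real.sqrt_eq_zero_of_nonpos (by nlinarith)
    have e4 : ∀ α : ℝ, tr1 n α x = 1 := by
      intro α
      unfold tr1
      rw [e3, mul_zero, Real.arccos_zero]
      exact div_self hcW.ne'
    have e5 : yh n x = 0 := by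
      unfold yh
      rw [e3, zero_mul]
    rw [e5]
    apply le_of_eq
    have e6 : ∀ α : ℝ, ((n : ℝ) - 1) * Real.sin α ^ (n - 2) * Real.cos α * Ω ^ 2 *
        l ^ (n - 1) / Wf Ω α l ^ (n + 1) * (1 - tr1 n α x) = 0 := by
      intro α
      rw [e4, sub_self, mul_zero]
    simp only [e6]
    exact intervalIntegral.integral_zero
  · set y := Real.sqrt (1 - x ^ 2) with hy
    have hy2 : y ^ 2 = 1 - x ^ 2 := Real.sq_sqrt (by nlinarith)
    have hy0 : 0 ≤ y := Real.sqrt_nonneg _
    have hy1 : y < 1 := by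
      by_contra h
      push Not at h
      nlinarith
    have hqpos : ∀ α : ℝ, 0 < 1 - y ^ 2 * Real.cos α ^ 2 := by
      intro α
      have h2 := Real.sin_sq_add_cos_sq α
      nlinarith [sq_nonneg (Real.sin α), sq_nonneg y, sq_nonneg x, sq_nonneg (Real.cos α),
        mul_nonneg (sq_nonneg y) (sq_nonneg (Real.sin α))]
    set q : ℝ → ℝ := fun α => Real.sqrt (1 - y ^ 2 * Real.cos α ^ 2) with hq
    have hq0 : ∀ α, 0 < q α := fun α => Real.sqrt_pos.2 (hqpos α)
    have hq2 : ∀ α, q α ^ 2 = 1 - y ^ 2 * Real.cos α ^ 2 := fun α => Real.sq_sqrt (hqpos α).le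
    have hqc : Continuous q :=
      (continuous_const.sub (continuous_const.mul (Real.continuous_cos.pow 2))).sqrt
    have hxl : Ω = x * l := by rw [hx]; field_simp
    have hWf : ∀ α, Wf Ω α l = l * q α := by
      intro α
      have h2 : Ω ^ 2 * Real.cos α ^ 2 + l ^ 2 * Real.sin α ^ 2 = (l * q α) ^ 2 := by
        rw [mul_pow, hq2, hy2, hxl]
        have := Real.sin_sq_add_cos_sq α
        linear_combination l ^ 2 * this
      unfold Wf
      rw [h2, Real.sqrt_sq (mul_pos hl (hq0 α)).le]
    -- the weight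
    set w : ℝ → ℝ := fun α => ((n : ℝ) - 1) * Real.sin α ^ (n - 2) * Real.cos α * Ω ^ 2 *
        l ^ (n - 1) / Wf Ω α l ^ (n + 1) with hw
    have hwc : Continuous w := by
      have e1 : w = fun α => ((n : ℝ) - 1) * Real.sin α ^ (n - 2) * Real.cos α * Ω ^ 2 *
          l ^ (n - 1) / (l * q α) ^ (n + 1) := by
        funext α
        simp only [hw]
        rw [hWf]
      rw [e1]
      refine Continuous.div ?_ ?_ fun α => (pow_pos (mul_pos hl (hq0 α)) _).ne'
      · exact (((continuous_const.mul (Real.continuous_sin.pow _)).mul Real.continuous_cos).mul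
          continuous_const).mul continuous_const
      · exact (continuous_const.mul hqc).pow _
    set u : ℝ → ℝ := fun a => ∫ α in (0 : ℝ)..a, w α with hu
    have hud : ∀ a, HasDerivAt u (w a) a := fun a =>
      intervalIntegral.integral_hasDerivAt_right (hwc.intervalIntegrable _ _)
        (hwc.stronglyMeasurableAtFilter _ _) hwc.continuousAt
    have huv : ∀ a, 0 ≤ a → a ≤ Real.pi / 2 → u a = (Real.sin a / q a) ^ (n - 1) := by
      intro a h2 h3
      have h4 := h1 n hn Ω l a hΩ hl h2 h3
      simp only [hu, hw]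
      rw [h4, hWf]
      congr 1
      field_simp
    -- the fraction
    set v : ℝ → ℝ := fun α => 1 - tr1 n α x with hv
    set v' : ℝ → ℝ := fun α => -(q α ^ (n - 2) * (y * Real.sin α / q α) / cW n) with hv'
    have hvd : ∀ α, HasDerivAt v (v' α) α := by
      intro α
      have habs : (y * Real.cos α) ^ 2 < 1 := by
        have := hqpos α
        nlinarith
      have hne1 : y * Real.cos α ≠ 1 := by
        intro h; rw [h] at habs; norm_num at habs
      have hne2 : y * Real.cos α ≠ -1 := by
        intro h; rw [h] at habs; norm_num at habs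
      have d1 : HasDerivAt (fun α : ℝ => Real.cos α * y) (-Real.sin α * y) α :=
        (Real.hasDerivAt_cos α).mul_const y
      have d2 : HasDerivAt Real.arccos (-(1 / Real.sqrt (1 - (Real.cos α * y) ^ 2))) (Real.cos α * y) :=
        Real.hasDerivAt_arccos (by rw [mul_comm]; exact hne2) (by rw [mul_comm]; exact hne1)
      have d3 := (JB2_fp n (Real.arccos (Real.cos α * y))).comp α (d2.comp α d1)
      have d4 := (d3.div_const (cW n)).const_sub 1
      refine d4.congr_deriv ?_
      have e1 : Real.sqrt (1 - (Real.cos α * y) ^ 2) = q α := by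
        simp only [hq]
        congr 1
        ring
      rw [Real.sin_arccos, e1]
      simp only [hv']
      have := hq0 α
      field_simp
    have hvc' : Continuous v' := by
      refine Continuous.neg (Continuous.div_const ?_ _)
      exact (hqc.pow _).mul ((continuous_const.mul Real.continuous_sin).div hqc fun α => (hq0 α).ne')
    have hparts := intervalIntegral.integral_mul_deriv_eq_deriv_mul (a := (0 : ℝ)) (b := Real.pi / 2)
      (u := u) (v := v) (u' := w) (v' := v') (fun a _ => hud a) (fun a _ => hvd a)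
      (hwc.intervalIntegrable _ _) (hvc'.intervalIntegrable _ _)
    have hu0 : u 0 = 0 := intervalIntegral.integral_same
    have hvpi : v (Real.pi / 2) = 0 := by
      simp only [hv]
      unfold tr1
      rw [Real.cos_pi_div_two, zero_mul, Real.arccos_zero]
      have : FPc n (Real.pi / 2) = cW n := rfl
      rw [this, div_self hcW.ne', sub_self]
    rw [hu0, hvpi, mul_zero, zero_mul, sub_zero, zero_sub] at hparts
    have hgoal : ∫ α in (0 : ℝ)..(Real.pi / 2), w α * v α = -∫ α in (0 : ℝ)..(Real.pi / 2), u α * v' α := by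
      rw [hparts, neg_neg]
    have hgoal2 : ∫ α in (0 : ℝ)..(Real.pi / 2), ((n : ℝ) - 1) * Real.sin α ^ (n - 2) * Real.cos α * Ω ^ 2 *
        l ^ (n - 1) / Wf Ω α l ^ (n + 1) * (1 - tr1 n α x) = ∫ α in (0 : ℝ)..(Real.pi / 2), w α * v α := rfl
    rw [hgoal2, hgoal, ← intervalIntegral.integral_neg]
    -- bound of the integrand
    have hcont : Continuous fun α : ℝ => Real.sin α ^ n + y ^ 2 * (Real.sin α ^ n - Real.sin α ^ (n + 2)) +
        (y ^ 2) ^ 2 * (Real.sin α ^ (n - 2) - 2 * Real.sin α ^ n + Real.sin α ^ (n + 2)) := by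
      have s1 := Real.continuous_sin.pow n
      have s2 := Real.continuous_sin.pow (n + 2)
      have s3 := Real.continuous_sin.pow (n - 2)
      exact (s1.add (continuous_const.mul (s1.sub s2))).add
        (continuous_const.mul ((s3.sub (continuous_const.mul s1)).add s2))
    have hucont : Continuous u := continuous_iff_continuousAt.2 fun a => (hud a).continuousAt
    have hle : ∫ α in (0 : ℝ)..(Real.pi / 2), -(u α * v' α) ≤
        ∫ α in (0 : ℝ)..(Real.pi / 2), y / cW n * (Real.sin α ^ n + y ^ 2 * (Real.sin α ^ n - Real.sin α ^ (n + 2)) +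
        (y ^ 2) ^ 2 * (Real.sin α ^ (n - 2) - 2 * Real.sin α ^ n + Real.sin α ^ (n + 2))) := by
      refine intervalIntegral.integral_mono_on (by positivity)
        ((hucont.mul hvc').neg.intervalIntegrable _ _) ((continuous_const.mul hcont).intervalIntegrable _ _) ?_
      intro α hα
      rw [huv α hα.1 hα.2]
      simp only [hv']
      have hs : 0 ≤ Real.sin α := Real.sin_nonneg_of_nonneg_of_le_pi hα.1 (by linarith [hα.2, Real.pi_pos])
      obtain ⟨k, rfl⟩ := Nat.exists_eq_add_of_le hn
      have e1 : 2 + k - 2 = k := by omega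
      have e2 : 2 + k - 1 = k + 1 := by omega
      rw [e1, e2]
      have hQ := hq0 α
      have hQ2 := hq2 α
      have e3 : -((Real.sin α / q α) ^ (k + 1) * -(q α ^ k * (y * Real.sin α / q α) / cW (2 + k))) =
          y / cW (2 + k) * (Real.sin α ^ (k + 2) / q α ^ 2) := by
        rw [div_pow]
        field_simp
        ring
      rw [e3]
      apply mul_le_mul_of_nonneg_left _ (div_nonneg hy0 hcW.le)
      have hsc := Real.sin_sq_add_cos_sq α
      have hc2 : Real.cos α ^ 2 = 1 - Real.sin α ^ 2 := by linarith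
      rw [hQ2, hc2]
      have hden : 0 < 1 - y ^ 2 * (1 - Real.sin α ^ 2) := by rw [← hc2]; exact hqpos α
      rw [div_le_iff₀ hden]
      have hsk : 0 ≤ Real.sin α ^ k := pow_nonneg hs k
      have hd0 : 0 ≤ y ^ 2 := sq_nonneg y
      have hd1 : y ^ 2 ≤ 1 := by nlinarith
      have hk2 : Real.sin α ^ (2 + k) = Real.sin α ^ k * Real.sin α ^ 2 := by rw [add_comm, pow_add]
      have hk2' : Real.sin α ^ (k + 2) = Real.sin α ^ k * Real.sin α ^ 2 := by rw [pow_add]
      have hk4 : Real.sin α ^ (2 + k + 2) = Real.sin α ^ k * Real.sin α ^ 4 := by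
        rw [show 2 + k + 2 = k + 4 by ring, pow_add]
      rw [hk2, hk2', hk4]
      set S := Real.sin α with hS
      set d := y ^ 2 with hd
      have hS1 : S ^ 2 ≤ 1 := by nlinarith [sq_nonneg (Real.cos α)]
      have key : S ^ 2 ≤ (S ^ 2 + d * (S ^ 2 - S ^ 4) + d ^ 2 * (1 - 2 * S ^ 2 + S ^ 4)) * (1 - d * (1 - S ^ 2)) := by
        have e5 : (S ^ 2 + d * (S ^ 2 - S ^ 4) + d ^ 2 * (1 - 2 * S ^ 2 + S ^ 4)) * (1 - d * (1 - S ^ 2)) - S ^ 2 =
            d ^ 2 * (1 - d) * (1 - S ^ 2) ^ 3 := by ring
        have e6 : 0 ≤ d ^ 2 * (1 - d) * (1 - S ^ 2) ^ 3 := by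
          have a1 : 0 ≤ 1 - d := by linarith
          have a2 : 0 ≤ 1 - S ^ 2 := by linarith
          positivity
        linarith
      calc S ^ k * S ^ 2 ≤ S ^ k * ((S ^ 2 + d * (S ^ 2 - S ^ 4) + d ^ 2 * (1 - 2 * S ^ 2 + S ^ 4)) * (1 - d * (1 - S ^ 2))) :=
            mul_le_mul_of_nonneg_left key hsk
        _ = _ := by ring
    refine hle.trans (le_of_eq ?_)
    rw [intervalIntegral.integral_const_mul]
    have hI : ∀ m : ℕ, IntervalIntegrable (fun α : ℝ => Real.sin α ^ m) volume 0 (Real.pi / 2) :=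
      fun m => (Real.continuous_sin.pow m).intervalIntegrable _ _
    rw [intervalIntegral.integral_add ((hI n).add (((hI n).sub (hI (n + 2))).const_mul _))
      ((((hI (n - 2)).sub ((hI n).const_mul 2)).add (hI (n + 2))).const_mul _),
      intervalIntegral.integral_add (hI n) (((hI n).sub (hI (n + 2))).const_mul _),
      intervalIntegral.integral_const_mul, intervalIntegral.integral_const_mul,
      intervalIntegral.integral_sub (hI n) (hI (n + 2)),
      intervalIntegral.integral_add ((hI (n - 2)).sub ((hI n).const_mul 2)) (hI (n + 2)),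
      intervalIntegral.integral_sub (hI (n - 2)) ((hI n).const_mul 2), intervalIntegral.integral_const_mul]
    have r1 : ∫ t in (0 : ℝ)..(Real.pi / 2), Real.sin t ^ (n - 2) = cW n := rfl
    have r2 : ∫ t in (0 : ℝ)..(Real.pi / 2), Real.sin t ^ n = ((n : ℝ) - 1) / n * cW n := by
      obtain ⟨k, rfl⟩ := Nat.exists_eq_add_of_le hn
      rw [show 2 + k = k + 2 by ring, JB2_rec k]
      have : ∫ t in (0 : ℝ)..(Real.pi / 2), Real.sin t ^ k = cW (k + 2) := rfl
      rw [this]
      push_cast
      congr 1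
      congr 1
      ring
    have r3 : ∫ t in (0 : ℝ)..(Real.pi / 2), Real.sin t ^ (n + 2) =
        ((n : ℝ) + 1) / ((n : ℝ) + 2) * (((n : ℝ) - 1) / n * cW n) := by
      rw [JB2_rec n, r2]
    rw [r1, r2, r3]
    unfold yh
    rw [← hy, ← hy2]
    have hn0 : (n : ℝ) ≠ 0 := by positivity
    have hn2 : (n : ℝ) + 2 ≠ 0 := by positivity
    field_simp
    ring

end Pool.Agent.CRO
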