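import Pool.Agent.helper58.CRO.SpecJ

/-!
# Row cro:JF2 (MP_5bf3c3_gt): the substitution
-/

set_option autoImplicit false

open scoped Manifold ContDiff Topology ENNReal
open MeasureTheory Set

noncomputable section

namespace Pool.Agent.CRO

private theorem JF2_fp (n : ℕ) (t : ℝ) : HasDerivAt (FPc n) (Real.sin t ^ (n - 2)) t := by
  have hc : Continuous fun s : ℝ => Real.sin s ^ (n - 2) := Real.continuous_sin.pow _
  exact intervalIntegral.integral_hasDerivAt_right (hc.intervalIntegrable _ _)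
    (hc.stronglyMeasurableAtFilter _ _) hc.continuousAt

/-- the function `A² + B² sin²` -/
private theorem JF2_der (n : ℕ) (hn : 2 ≤ n) (A B φ : ℝ) (hA : 0 < A) (hB : 0 < B) (h0 : 0 < φ)
    (h1 : φ < Real.pi / 2) :
    HasDerivAt (fun φ : ℝ => FPc n (Real.arccos (A * Real.cos φ / Real.sqrt (A ^ 2 + B ^ 2 * Real.sin φ ^ 2))))
      (A * Real.sqrt (A ^ 2 + B ^ 2) ^ (n - 1) *
        (Real.sin φ ^ (n - 2) / Real.sqrt (A ^ 2 + B ^ 2 * Real.sin φ ^ 2) ^ n)) φ := by
  have hs : 0 < Real.sin φ := Real.sin_pos_of_pos_of_lt_pi h0 (by linarith [Real.pi_pos])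
  have hc : 0 < Real.cos φ := Real.cos_pos_of_mem_Ioo ⟨by linarith [Real.pi_pos], h1⟩
  have hsc := Real.sin_sq_add_cos_sq φ
  have hDpos : 0 < A ^ 2 + B ^ 2 * Real.sin φ ^ 2 := by positivity
  set D := Real.sqrt (A ^ 2 + B ^ 2 * Real.sin φ ^ 2) with hD
  have hD0 : 0 < D := Real.sqrt_pos.2 hDpos
  have hD2 : D ^ 2 = A ^ 2 + B ^ 2 * Real.sin φ ^ 2 := Real.sq_sqrt hDpos.le
  set W := Real.sqrt (A ^ 2 + B ^ 2) with hW
  have hWpos : 0 < A ^ 2 + B ^ 2 := by positivity
  have hW0 : 0 < W := Real.sqrt_pos.2 hWpos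
  have hW2 : W ^ 2 = A ^ 2 + B ^ 2 := Real.sq_sqrt hWpos.le
  -- derivative of D
  have dD : HasDerivAt (fun φ : ℝ => Real.sqrt (A ^ 2 + B ^ 2 * Real.sin φ ^ 2))
      (B ^ 2 * Real.sin φ * Real.cos φ / D) φ := by
    have e1 : HasDerivAt (fun φ : ℝ => A ^ 2 + B ^ 2 * Real.sin φ ^ 2)
        (B ^ 2 * (2 * Real.sin φ * Real.cos φ)) φ := by
      have e2 : HasDerivAt (fun φ : ℝ => Real.sin φ ^ 2) (2 * Real.sin φ * Real.cos φ) φ := by
        have := (Real.hasDerivAt_sin φ).pow 2
        refine this.congr_deriv ?_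
        norm_num
      exact (e2.const_mul (B ^ 2)).const_add (A ^ 2)
    have e3 := e1.sqrt hDpos.ne'
    refine e3.congr_deriv ?_
    rw [← hD]
    field_simp
  have du : HasDerivAt (fun φ : ℝ => A * Real.cos φ / Real.sqrt (A ^ 2 + B ^ 2 * Real.sin φ ^ 2))
      (-(A * Real.sin φ * W ^ 2 / D ^ 3)) φ := by
    have e1 := ((Real.hasDerivAt_cos φ).const_mul A).div dD hD0.ne'
    refine e1.congr_deriv ?_
    rw [← hD]
    field_simp
    rw [hD2, hW2]
    linear_combination (-B ^ 2) * hsc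
  set u := A * Real.cos φ / D with hu
  have hu0 : 0 < u := by positivity
  have h1u : 1 - u ^ 2 = (W * Real.sin φ / D) ^ 2 := by
    rw [hu]
    field_simp
    rw [hD2, hW2]
    linear_combination (-A ^ 2) * hsc
  have hq : 0 < W * Real.sin φ / D := by positivity
  have hsq : Real.sqrt (1 - u ^ 2) = W * Real.sin φ / D := by
    rw [h1u, Real.sqrt_sq hq.le]
  have hu1 : u ≠ 1 := by
    intro h
    have : (W * Real.sin φ / D) ^ 2 = 0 := by rw [← h1u, h]; norm_num
    have h3 : 0 < (W * Real.sin φ / D) ^ 2 := by positivity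
    linarith
  have hum : u ≠ -1 := by linarith
  have da := (Real.hasDerivAt_arccos hum hu1).comp φ du
  have df := (JF2_fp n (Real.arccos u)).comp φ da
  refine df.congr_deriv ?_
  rw [Real.sin_arccos, hsq]
  obtain ⟨k, rfl⟩ := Nat.exists_eq_add_of_le hn
  have e1 : 2 + k - 2 = k := by omega
  have e2 : 2 + k - 1 = k + 1 := by omega
  rw [e1, e2, div_pow, mul_pow]
  field_simp
  ring

theorem JF2 : JF2_stmt := by
  intro n hn Ω α l hΩ hα hα2 hl
  have hcα : 0 < Real.cos α := Real.cos_pos_of_mem_Ioo ⟨by linarith [Real.pi_pos], hα2⟩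
  have hsα : 0 < Real.sin α := Real.sin_pos_of_pos_of_lt_pi hα (by linarith [Real.pi_pos])
  have hscα := Real.sin_sq_add_cos_sq α
  set A := Ω * Real.cos α with hAdef
  set B := l * Real.sin α with hBdef
  have hA : 0 < A := by positivity
  have hB : 0 < B := by positivity
  have hWf : ∀ φ : ℝ, Wf Ω α (l * Real.sin φ) = Real.sqrt (A ^ 2 + B ^ 2 * Real.sin φ ^ 2) := by
    intro φ
    unfold Wf
    congr 1
    rw [hAdef, hBdef]; ring
  have hWl : Wf Ω α l = Real.sqrt (A ^ 2 + B ^ 2) := by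
    unfold Wf
    congr 1
    rw [hAdef, hBdef]; ring
  have hDpos : ∀ φ : ℝ, 0 < A ^ 2 + B ^ 2 * Real.sin φ ^ 2 := fun φ => by positivity
  have hW0 : 0 < Real.sqrt (A ^ 2 + B ^ 2) := Real.sqrt_pos.2 (by positivity)
  -- the point
  set x := Ω / l with hx
  have hx0 : 0 < x := by positivity
  set y := min 1 x with hy
  have hy0 : 0 < y := lt_min one_pos hx0
  have hy1 : y ≤ 1 := min_le_left _ _
  set φm := Real.arcsin y with hφm
  have hφ0 : 0 < φm := Real.arcsin_pos.2 hy0
  have hφ1 : φm ≤ Real.pi / 2 := Real.arcsin_le_pi_div_two y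
  have hsm : Real.sin φm = y := Real.sin_arcsin (by linarith) hy1
  have hcm : Real.cos φm = Real.sqrt (1 - y ^ 2) := Real.cos_arcsin y
  -- the antiderivative
  set G : ℝ → ℝ := fun φ : ℝ => FPc n (Real.arccos (A * Real.cos φ / Real.sqrt (A ^ 2 + B ^ 2 * Real.sin φ ^ 2)))
    with hG
  have hGc : Continuous G := by
    have h1 : Continuous (FPc n) := continuous_iff_continuousAt.2 fun t => (JF2_fp n t).continuousAt
    refine h1.comp (Real.continuous_arccos.comp ?_)
    refine (continuous_const.mul Real.continuous_cos).div ?_ fun φ => (Real.sqrt_pos.2 (hDpos φ)).ne'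
    exact (continuous_const.add (continuous_const.mul (Real.continuous_sin.pow 2))).sqrt
  have hic : Continuous fun φ : ℝ => Real.sin φ ^ (n - 2) / Real.sqrt (A ^ 2 + B ^ 2 * Real.sin φ ^ 2) ^ n := by
    refine (Real.continuous_sin.pow _).div ?_ fun φ => (pow_pos (Real.sqrt_pos.2 (hDpos φ)) n).ne'
    exact ((continuous_const.add (continuous_const.mul (Real.continuous_sin.pow 2))).sqrt).pow n
  have hft : ∫ φ in (0 : ℝ)..φm, A * Real.sqrt (A ^ 2 + B ^ 2) ^ (n - 1) *
      (Real.sin φ ^ (n - 2) / Real.sqrt (A ^ 2 + B ^ 2 * Real.sin φ ^ 2) ^ n) = G φm - G 0 := by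
    refine intervalIntegral.integral_eq_sub_of_hasDerivAt_of_le hφ0.le hGc.continuousOn ?_ ?_
    · intro φ hφ
      exact JF2_der n hn A B φ hA hB hφ.1 (lt_of_lt_of_le hφ.2 hφ1)
    · exact (continuous_const.mul hic).intervalIntegrable _ _
  have hG0 : G 0 = 0 := by
    simp only [hG, Real.cos_zero, Real.sin_zero, mul_one]
    have h1 : A ^ 2 + B ^ 2 * 0 ^ 2 = A ^ 2 := by ring
    rw [h1, Real.sqrt_sq hA.le, div_self hA.ne', Real.arccos_one, FPc, intervalIntegral.integral_same]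
  -- the value at the end
  have hGm : G φm = FPc n (Real.arccos (Real.cos α * Real.sqrt (1 - x ^ 2))) := by
    simp only [hG]
    congr 2
    rw [hcm, hsm]
    rcases le_total 1 x with h | h
    · have e1 : y = 1 := min_eq_left h
      have e2 : Real.sqrt (1 - y ^ 2) = 0 := by rw [e1]; norm_num
      have e3 : Real.sqrt (1 - x ^ 2) = 0 := Real.sqrt_eq_zero_of_nonpos (by nlinarith)
      rw [e2, e3, mul_zero, mul_zero, zero_div]
    · have e1 : y = x := min_eq_right h
      rw [e1]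
      have e2 : A ^ 2 + B ^ 2 * x ^ 2 = Ω ^ 2 := by
        rw [hAdef, hBdef, hx]
        field_simp
        linear_combination hscα
      rw [e2, Real.sqrt_sq hΩ.le, hAdef]
      field_simp
  have hcW : 0 < cW n := by
    unfold cW
    refine intervalIntegral.intervalIntegral_pos_of_pos_on ?_ ?_ (by positivity)
    · exact (Real.continuous_sin.pow _).intervalIntegrable _ _
    · intro t ht
      exact pow_pos (Real.sin_pos_of_pos_of_lt_pi ht.1 (by linarith [ht.2, Real.pi_pos])) _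
  -- the integral up to φm
  have hI1 : ∫ φ in (0 : ℝ)..φm, Real.sin φ ^ (n - 2) / Real.sqrt (A ^ 2 + B ^ 2 * Real.sin φ ^ 2) ^ n =
      cW n * tr1 n α x / (A * Real.sqrt (A ^ 2 + B ^ 2) ^ (n - 1)) := by
    rw [intervalIntegral.integral_const_mul, hG0, sub_zero, hGm] at hft
    have h1 : cW n * tr1 n α x = FPc n (Real.arccos (Real.cos α * Real.sqrt (1 - x ^ 2))) := by
      unfold tr1
      field_simp
    rw [h1, ← hft]
    have h2 : A * Real.sqrt (A ^ 2 + B ^ 2) ^ (n - 1) ≠ 0 := by positivity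
    field_simp
  -- the integrand
  set F : ℝ → ℝ := fun φ => if l * Real.sin φ < Ω then
        Real.sin φ ^ (n - 2) / Wf Ω α (l * Real.sin φ) ^ n else 0 with hF
  have hFin : ∀ φ, 0 < φ → φ < φm → F φ =
      Real.sin φ ^ (n - 2) / Real.sqrt (A ^ 2 + B ^ 2 * Real.sin φ ^ 2) ^ n := by
    intro φ h1 h2
    have h3 : Real.sin φ < y := by
      rw [← hsm]
      exact Real.strictMonoOn_sin ⟨by linarith [Real.pi_pos], by linarith⟩ ⟨by linarith [Real.pi_pos], hφ1⟩ h2
    have h4 : l * Real.sin φ < Ω := by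
      have h5 : Real.sin φ < x := lt_of_lt_of_le h3 (min_le_right _ _)
      rw [hx, lt_div_iff₀ hl] at h5
      linarith
    simp only [hF]
    rw [if_pos h4, hWf]
  have hFout : ∀ φ, φm < φ → φ ≤ Real.pi / 2 → F φ = 0 := by
    intro φ h1 h2
    have h3 : y < Real.sin φ := by
      rw [← hsm]
      exact Real.strictMonoOn_sin ⟨by linarith [Real.pi_pos], hφ1⟩ ⟨by linarith [Real.pi_pos], h2⟩ h1
    have h4 : ¬ l * Real.sin φ < Ω := by
      intro h5
      have h6 : Real.sin φ < x := by rw [hx, lt_div_iff₀ hl]; linarith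
      have h7 : Real.sin φ ≤ 1 := Real.sin_le_one φ
      have h8 : Real.sin φ ≤ y := le_min h7 h6.le
      linarith
    simp only [hF]
    rw [if_neg h4]
  have hae1 : ∀ᵐ φ ∂volume, φ ∈ Set.uIoc (0 : ℝ) φm → F φ =
      Real.sin φ ^ (n - 2) / Real.sqrt (A ^ 2 + B ^ 2 * Real.sin φ ^ 2) ^ n := by
    have h1 : ∀ᵐ φ : ℝ ∂volume, φ ≠ φm := by
      rw [ae_iff]
      simp
    filter_upwards [h1] with φ h2 h3
    rw [uIoc_of_le hφ0.le] at h3
    exact hFin φ h3.1 (lt_of_le_of_ne h3.2 h2)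
  have hae2 : ∀ᵐ φ ∂volume, φ ∈ Set.uIoc φm (Real.pi / 2) → F φ = (fun _ : ℝ => (0 : ℝ)) φ := by
    refine Filter.Eventually.of_forall fun φ h3 => ?_
    rw [uIoc_of_le hφ1] at h3
    exact hFout φ h3.1 h3.2
  have hii1 : IntervalIntegrable F volume 0 φm := by
    refine (hic.intervalIntegrable 0 φm).congr_ae ?_
    rw [Filter.EventuallyEq, ae_restrict_iff' measurableSet_uIoc]
    filter_upwards [hae1] with φ h2 h3
    exact (h2 h3).symm
  have hii2 : IntervalIntegrable F volume φm (Real.pi / 2) := by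
    refine (continuous_const.intervalIntegrable φm (Real.pi / 2) : IntervalIntegrable (fun _ : ℝ => (0 : ℝ)) volume φm (Real.pi / 2)).congr_ae ?_
    rw [Filter.EventuallyEq, ae_restrict_iff' measurableSet_uIoc]
    filter_upwards [hae2] with φ h2 h3
    exact (h2 h3).symm
  have hmain : ∫ φ in (0 : ℝ)..(Real.pi / 2), F φ = cW n * tr1 n α x / (A * Real.sqrt (A ^ 2 + B ^ 2) ^ (n - 1)) := by
    rw [← intervalIntegral.integral_add_adjacent_intervals hii1 hii2,
      intervalIntegral.integral_congr_ae hae1, intervalIntegral.integral_congr_ae hae2, hI1,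
      intervalIntegral.integral_zero, add_zero]
  rw [hWl]
  exact hmain

end Pool.Agent.CRO
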