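import Pool.Agent.helper58.CRO.SpecE

/-!
# Row cro:SPG: the round metric
-/

set_option linter.unusedVariables false
set_option linter.deprecated false

open scoped Manifold ContDiff Topology ENNReal EuclideanSpace
open MeasureTheory Set Bundle Filter

noncomputable section

namespace Pool.Agent.CRO

/-- the inner product -/
def SPG_I (n : ℕ) : En (n + 1) →L[ℝ] En (n + 1) →L[ℝ] ℝ := innerSL ℝ

/-- the pull-back of the inner product -/
def SPG_Q (n : ℕ) (A : En n →L[ℝ] En (n + 1)) : En n →L[ℝ] En n →L[ℝ] ℝ :=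
  (((SPG_I n).comp A).flip).comp A

theorem SPG_Q_apply (n : ℕ) (A : En n →L[ℝ] En (n + 1)) (v w : En n) :
    SPG_Q n A v w = inner ℝ (A w) (A v) := rfl

/-- the differential of the inclusion -/
def SPG_D {n : ℕ} (x : Sn n) : En n →L[ℝ] En (n + 1) :=
  mfderiv (𝓡 n) 𝓘(ℝ, En (n + 1)) (fun y : Sn n => (y : En (n + 1))) x

theorem SPG_inj {n : ℕ} (x : Sn n) : Function.Injective (SPG_D x) :=
  mfderiv_coe_sphere_injective x

theorem SPG_smooth (n : ℕ) (x₀ : Sn n) : ContMDiffAt (𝓡 n) 𝓘(ℝ, En n →L[ℝ] En (n + 1)) ∞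
    (inTangentCoordinates (𝓡 n) 𝓘(ℝ, En (n + 1)) id (fun y : Sn n => (y : En (n + 1)))
      (mfderiv (𝓡 n) 𝓘(ℝ, En (n + 1)) (fun y : Sn n => (y : En (n + 1)))) x₀) x₀ :=
  ContMDiffAt.mfderiv_const (n := ω) contMDiff_coe_sphere.contMDiffAt (by exact le_top)

theorem SPG_Qsmooth (n : ℕ) : ContDiff ℝ ∞ (SPG_Q n) := by
  unfold SPG_Q
  have h1 : ContDiff ℝ ∞ (fun A : En n →L[ℝ] En (n + 1) => (SPG_I n).comp A) :=
    contDiff_const.clm_comp contDiff_id
  have h0 : ContDiff ℝ ∞ (fun B : En n →L[ℝ] En (n + 1) →L[ℝ] ℝ => B.flip) :=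
    IsBoundedLinearMap.contDiff ⟨⟨fun _ _ => rfl, fun _ _ => rfl⟩, 1, one_pos, fun B => by
      rw [one_mul, ContinuousLinearMap.opNorm_flip]⟩
  have h2 : ContDiff ℝ ∞ (fun A : En n →L[ℝ] En (n + 1) => ((SPG_I n).comp A).flip) :=
    h0.comp h1
  exact h2.clm_comp contDiff_id

theorem SPG_bdd {n : ℕ} (A : En n →L[ℝ] En (n + 1)) (hA : Function.Injective A) :
    Bornology.IsVonNBounded ℝ {v : En n | SPG_Q n A v v < 1} := by
  have h1 : A.toLinearMap.ker = ⊥ := LinearMap.ker_eq_bot.2 hA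
  obtain ⟨K, hK, hKA⟩ := A.toLinearMap.exists_antilipschitzWith h1
  rw [NormedSpace.isVonNBounded_iff ℝ, Metric.isBounded_iff_subset_ball 0] 
  refine ⟨K + 1, fun v hv => ?_⟩
  have h2 : ‖A v‖ ^ 2 < 1 := by
    rw [← real_inner_self_eq_norm_sq]
    exact hv
  have h3 : ‖A v‖ ≤ 1 := by nlinarith [norm_nonneg (A v)]
  have h4 : ‖v‖ ≤ K * ‖A v‖ := by
    have h5 := hKA.le_mul_dist v 0
    rw [dist_zero_right] at h5
    simpa using h5
  rw [mem_ball_zero_iff]
  nlinarith [K.2]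

theorem SPG : SPG_stmt := by
  intro n
  refine ⟨{ inner := fun x => SPG_Q n (SPG_D x)
            symm := ?_
            pos := ?_
            isVonNBounded := ?_
            contMDiff := ?_ }, ?_⟩
  · intro x v w
    exact real_inner_comm (SPG_D x v) (SPG_D x w)
  · intro x v hv
    show 0 < inner ℝ (SPG_D x v) (SPG_D x v)
    refine real_inner_self_pos.2 fun h => hv ?_
    exact SPG_inj x (h.trans (map_zero (SPG_D x)).symm)
  · intro x
    exact SPG_bdd (SPG_D x) (SPG_inj x)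
  · intro x₀
    rw [contMDiffAt_section]
    have h1 := ((SPG_Qsmooth n).contMDiff.contMDiffAt).comp x₀ (SPG_smooth n x₀)
    refine h1.congr_of_eventuallyEq ?_
    have hx₀ : (trivializationAt (En n) (TangentSpace (𝓡 n) : Sn n → Type) x₀).baseSet ∈ 𝓝 x₀ :=
      (trivializationAt (En n) (TangentSpace (𝓡 n) : Sn n → Type) x₀).open_baseSet.mem_nhds
        (mem_baseSet_trivializationAt (En n) _ x₀)
    filter_upwards [hx₀] with x hx
    rw [hom_trivializationAt_apply]
    ext v w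
    rw [inCoordinates_apply_eq₂ hx hx (by trivial)]
    have h2 : ∀ u : En n, inTangentCoordinates (𝓡 n) 𝓘(ℝ, En (n + 1)) id
        (fun y : Sn n => (y : En (n + 1)))
        (mfderiv (𝓡 n) 𝓘(ℝ, En (n + 1)) (fun y : Sn n => (y : En (n + 1)))) x₀ x u =
        SPG_D x ((trivializationAt (En n) (TangentSpace (𝓡 n) : Sn n → Type) x₀).symm x u) := by
      intro u
      rw [inTangentCoordinates, ContinuousLinearMap.inCoordinates,
        TangentBundle.continuousLinearMapAt_model_space]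
      show SPG_D x ((Trivialization.symmL ℝ
        (trivializationAt (En n) (TangentSpace (𝓡 n) : Sn n → Type) x₀) x) u) = _
      rw [Trivialization.symmL_apply _ hx]
    show (Trivialization.linearMapAt ℝ (trivializationAt ℝ (fun _ : Sn n => ℝ) x₀) x)
      (inner ℝ (SPG_D x ((trivializationAt (En n) (TangentSpace (𝓡 n) : Sn n → Type) x₀).symm x w))
        (SPG_D x ((trivializationAt (En n) (TangentSpace (𝓡 n) : Sn n → Type) x₀).symm x v))) =
      inner ℝ (inTangentCoordinates (𝓡 n) 𝓘(ℝ, En (n + 1)) id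
        (fun y : Sn n => (y : En (n + 1)))
        (mfderiv (𝓡 n) 𝓘(ℝ, En (n + 1)) (fun y : Sn n => (y : En (n + 1)))) x₀ x w)
        (inTangentCoordinates (𝓡 n) 𝓘(ℝ, En (n + 1)) id
        (fun y : Sn n => (y : En (n + 1)))
        (mfderiv (𝓡 n) 𝓘(ℝ, En (n + 1)) (fun y : Sn n => (y : En (n + 1)))) x₀ x v)
    rw [h2, h2]
    simp
  · intro x v w
    exact real_inner_comm (SPG_D x v) (SPG_D x w)

end Pool.Agent.CRO
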