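import Pool.Agent.helper58.CRO.SpecE

/-!
# Row cro:SPV: the volume of the round sphere
-/

set_option linter.unusedVariables false

open scoped Manifold ContDiff Topology ENNReal
open MeasureTheory Set Bundle Filter

noncomputable section

namespace Pool.Agent.CRO

theorem SPV (h1 : SPF_stmt) (h2 : CNE_stmt) (h3 : SVK_stmt) : SPV_stmt := by
  intro n g hg A
  unfold gvol
  refine iSup_le fun k => iSup_le fun e => iSup_le fun S => iSup_le fun hS => ?_
  obtain ⟨he, hm, hSA, hd⟩ := hS
  set f : Fin k → En n → En (n + 1) := fun i y => (((e i).symm y : Sn n) : En (n + 1)) with hf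
  have hft := fun i => h1 n g hg (e i) (he i)
  have hB : ∀ i, e i '' S i ⊆ (e i).target := by
    rintro i _ ⟨s, hs, rfl⟩
    exact (e i).map_source (hSA i hs).2
  have hnorm : ∀ i y, ‖f i y‖ = 1 := fun i y => by
    have h4 := ((e i).symm y).2
    rwa [mem_sphere_zero_iff_norm] at h4
  have hinj : ∀ i, InjOn (f i) (e i).target := by
    intro i y hy y' hy' h
    have h4 : (e i).symm y = (e i).symm y' := Subtype.ext h
    exact (e i).symm.injOn hy hy' h4
  set C : Fin k → Set (En (n + 1)) :=
    fun i => {p | ∃ t ∈ Ioo (0 : ℝ) 1, ∃ y ∈ e i '' S i, p = t • f i y} with hC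
  have hint : ∀ i, ∫⁻ y in e i '' S i, ENNReal.ofReal (dens g (e i) y) =
      ENNReal.ofReal ((n : ℝ) + 1) * volume (C i) := by
    intro i
    have h4 := h2 n (f i) (e i).target (e i '' S i) (e i).open_target (hm i) (hB i)
      ((hft i).1.of_le (by exact_mod_cast le_top)) (fun y _ => hnorm i y) ((hinj i).mono (hB i))
    have h5 : ∫⁻ y in e i '' S i, ENNReal.ofReal (dens g (e i) y) =
        ∫⁻ y in e i '' S i, ENNReal.ofReal (Real.sqrt (Matrix.det
        (Matrix.of fun a b : Fin n => inner ℝ (fderiv ℝ (f i) y (EuclideanSpace.single a 1))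
          (fderiv ℝ (f i) y (EuclideanSpace.single b 1))))) := by
      refine setLIntegral_congr_fun (hm i) fun y hy => ?_
      unfold dens
      simp only [(hft i).2 y (hB i hy), hf]
    rw [h5]
    show _ = ENNReal.ofReal ((n : ℝ) + 1) *
      volume {p | ∃ t ∈ Ioo (0 : ℝ) 1, ∃ y ∈ e i '' S i, p = t • f i y}
    rw [h4, ← mul_assoc, ← ENNReal.ofReal_mul (by positivity)]
    rw [mul_one_div_cancel (by positivity), ENNReal.ofReal_one, one_mul]
  have hCm : ∀ i, MeasurableSet (C i) := by
    intro i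
    have h4 : C i = (fun p : ℝ × En n => p.1 • f i p.2) '' (Ioo (0 : ℝ) 1 ×ˢ (e i '' S i)) := by
      ext p
      constructor
      · rintro ⟨t, ht, y, hy, rfl⟩
        exact ⟨(t, y), ⟨ht, hy⟩, rfl⟩
      · rintro ⟨⟨t, y⟩, ⟨ht, hy⟩, rfl⟩
        exact ⟨t, ht, y, hy, rfl⟩
    rw [h4]
    refine (measurableSet_Ioo.prod (hm i)).image_of_continuousOn_injOn ?_ ?_
    · refine continuous_fst.continuousOn.smul ?_
      exact ((hft i).1.continuousOn.mono (hB i)).comp continuous_snd.continuousOn
        (fun p hp => hp.2)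
    · rintro ⟨t, y⟩ ⟨ht, hy⟩ ⟨t', y'⟩ ⟨ht', hy'⟩ h
      have h5 : t • f i y = t' • f i y' := h
      have h6 : t = t' := by
        have h7 := congrArg norm h5
        rw [norm_smul, norm_smul, hnorm, hnorm, mul_one, mul_one, Real.norm_of_nonneg ht.1.le,
          Real.norm_of_nonneg ht'.1.le] at h7
        exact h7
      subst h6
      have h8 : f i y = f i y' := smul_right_injective _ (ne_of_gt ht.1) h5
      have h9 : y = y' := hinj i (hB i hy) (hB i hy') h8
      rw [h9]
  have hCd : Pairwise (Function.onFun Disjoint C) := by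
    intro i j hij
    rw [Function.onFun, Set.disjoint_left]
    rintro p ⟨t, ht, _, ⟨s, hs, rfl⟩, rfl⟩ ⟨t', ht', _, ⟨s', hs', rfl⟩, h⟩
    have h6 : t = t' := by
      have h7 := congrArg norm h
      rw [norm_smul, norm_smul, hnorm, hnorm, mul_one, mul_one, Real.norm_of_nonneg ht.1.le,
        Real.norm_of_nonneg ht'.1.le] at h7
      exact h7
    subst h6
    have h8 : f i (e i s) = f j (e j s') := smul_right_injective _ (ne_of_gt ht.1) h
    have h9 : (e i).symm (e i s) = (e j).symm (e j s') := Subtype.ext h8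
    rw [(e i).left_inv (hSA i hs).2, (e j).left_inv (hSA j hs').2] at h9
    subst h9
    exact Set.disjoint_left.1 (hd hij) hs hs'
  have hCb : (⋃ i, C i) ⊆ Metric.ball (0 : En (n + 1)) 1 := by
    refine Set.iUnion_subset fun i => ?_
    rintro p ⟨t, ht, y, hy, rfl⟩
    rw [mem_ball_zero_iff, norm_smul, hnorm, mul_one, Real.norm_of_nonneg ht.1.le]
    exact ht.2
  calc ∑ i, ∫⁻ y in e i '' S i, ENNReal.ofReal (dens g (e i) y)
      = ∑ i, ENNReal.ofReal ((n : ℝ) + 1) * volume (C i) := Finset.sum_congr rfl fun i _ => hint i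
    _ = ENNReal.ofReal ((n : ℝ) + 1) * volume (⋃ i, C i) := by
        rw [← Finset.mul_sum, measure_iUnion hCd hCm, tsum_fintype]
    _ ≤ ENNReal.ofReal ((n : ℝ) + 1) * volume (Metric.ball (0 : En (n + 1)) 1) := by
        gcongr
    _ = ENNReal.ofReal (sphereVol n) := by
        rw [h3 n, ENNReal.ofReal_mul (by positivity)]
        congr 1
        unfold kap
        rw [ENNReal.ofReal_toReal measure_ball_lt_top.ne]

end Pool.Agent.CRO
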