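import Pool.Agent.helper58.CRO.SpecE

/-!
# Row cro:STI: the volume of the sphere of large dimension
-/

set_option linter.unusedVariables false

open scoped Topology
open Filter Set

noncomputable section

namespace Pool.Agent.CRO

theorem STI_mono {a b : ℝ} (ha : 1 ≤ a) (hab : a ≤ b) :
    a * Real.log a - a ≤ b * Real.log b - b := by
  have hb : 0 < b := by linarith
  have ha0 : 0 < a := by linarith
  have h1 : Real.log (a / b) ≤ a / b - 1 := Real.log_le_sub_one_of_pos (by positivity)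
  rw [Real.log_div ha0.ne' hb.ne'] at h1
  have h2 : b * (Real.log a - Real.log b) ≤ b * (a / b - 1) :=
    mul_le_mul_of_nonneg_left h1 hb.le
  have h3 : b * (a / b - 1) = a - b := by field_simp
  have h4 : 0 ≤ (b - a) * Real.log a := mul_nonneg (by linarith) (Real.log_nonneg ha)
  nlinarith

theorem STI_fac_up (m : ℕ) (hm : 1 ≤ m) : Real.log (m.factorial : ℝ) ≤
    1 + 1 / 2 * Real.log m + m * Real.log m - m := by
  have hm0 : (0 : ℝ) < m := by exact_mod_cast hm
  have h1 := Stirling.log_stirlingSeq_formula m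
  obtain ⟨m', rfl⟩ := Nat.exists_eq_succ_of_ne_zero (by omega : m ≠ 0)
  have h2 : Stirling.stirlingSeq (m' + 1) ≤ Stirling.stirlingSeq 1 :=
    Stirling.stirlingSeq'_antitone (Nat.zero_le m')
  rw [Stirling.stirlingSeq_one] at h2
  have h3 : Real.log (Stirling.stirlingSeq (m' + 1)) ≤ 1 - 1 / 2 * Real.log 2 := by
    refine (Real.log_le_log (Stirling.stirlingSeq'_pos m') h2).trans (le_of_eq ?_)
    rw [Real.log_div (Real.exp_pos _).ne' (by positivity), Real.log_exp,
      Real.log_sqrt (by norm_num)]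
    ring
  have h4 : Real.log (((m' + 1 : ℕ) : ℝ) / Real.exp 1) = Real.log ((m' + 1 : ℕ) : ℝ) - 1 := by
    rw [Real.log_div hm0.ne' (Real.exp_pos _).ne', Real.log_exp]
  have h5 : Real.log (2 * ((m' + 1 : ℕ) : ℝ)) = Real.log 2 + Real.log ((m' + 1 : ℕ) : ℝ) :=
    Real.log_mul (by norm_num) hm0.ne'
  have h6 : Real.log (Stirling.stirlingSeq (m' + 1)) = Real.log ((m' + 1).factorial : ℝ) -
      1 / 2 * Real.log (2 * ((m' + 1 : ℕ) : ℝ)) -
      ((m' + 1 : ℕ) : ℝ) * Real.log (((m' + 1 : ℕ) : ℝ) / Real.exp 1) := h1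
  rw [h4, h5] at h6
  show Real.log ((m' + 1).factorial : ℝ) ≤ 1 + 1 / 2 * Real.log ((m' + 1 : ℕ) : ℝ) +
    ((m' + 1 : ℕ) : ℝ) * Real.log ((m' + 1 : ℕ) : ℝ) - ((m' + 1 : ℕ) : ℝ)
  nlinarith

theorem STI_fac_low (m : ℕ) (hm : 1 ≤ m) :
    m * Real.log m - m ≤ Real.log (m.factorial : ℝ) := by
  have h1 := Stirling.le_log_factorial_stirling (n := m) (by omega)
  have h2 : 0 ≤ Real.log m := Real.log_nonneg (by exact_mod_cast hm)
  have h3 : 0 ≤ Real.log (2 * Real.pi) := by
    apply Real.log_nonneg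
    nlinarith [Real.pi_gt_three]
  linarith

theorem STI_up {x : ℝ} (hx : 2 ≤ x) :
    Real.log (Real.Gamma x) ≤ x * Real.log x - x + 1 / 2 * Real.log x + 1 := by
  have hm2 : 2 ≤ ⌊x⌋₊ := Nat.le_floor (by exact_mod_cast hx)
  set m := ⌊x⌋₊ with hm
  have hm2' : (2 : ℝ) ≤ m := by exact_mod_cast hm2
  have hmx : (m : ℝ) ≤ x := Nat.floor_le (by linarith)
  have hxm : x < m + 1 := Nat.lt_floor_add_one x
  have h1 : Real.Gamma x ≤ Real.Gamma ((m : ℝ) + 1) :=
    Real.Gamma_strictMonoOn_Ici.monotoneOn (show (2 : ℝ) ≤ x from hx)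
      (show (2 : ℝ) ≤ (m : ℝ) + 1 by linarith) hxm.le
  rw [Real.Gamma_nat_eq_factorial] at h1
  have h2 := Real.log_le_log (Real.Gamma_pos_of_pos (by linarith)) h1
  have h3 := STI_fac_up m (by omega)
  have h4 := STI_mono (a := (m : ℝ)) (b := x) (by linarith) hmx
  have h5 : Real.log m ≤ Real.log x := Real.log_le_log (by linarith) hmx
  linarith

theorem STI_low {x : ℝ} (hx : 3 ≤ x) :
    x * Real.log x - x - 2 * Real.log x ≤ Real.log (Real.Gamma x) := by
  have hm2 : 3 ≤ ⌊x⌋₊ := Nat.le_floor (by exact_mod_cast hx)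
  set m := ⌊x⌋₊ with hm
  have hm2' : (3 : ℝ) ≤ m := by exact_mod_cast hm2
  have hmx : (m : ℝ) ≤ x := Nat.floor_le (by linarith)
  have hxm : x < m + 1 := Nat.lt_floor_add_one x
  have h1 : Real.Gamma (m : ℝ) ≤ Real.Gamma x :=
    Real.Gamma_strictMonoOn_Ici.monotoneOn (show (2 : ℝ) ≤ m by linarith)
      (show (2 : ℝ) ≤ x by linarith) hmx
  obtain ⟨m', hm'⟩ := Nat.exists_eq_succ_of_ne_zero (by omega : m ≠ 0)
  have h6 : Real.Gamma (m : ℝ) = (m'.factorial : ℝ) := by
    rw [hm', Nat.succ_eq_add_one, Nat.cast_add, Nat.cast_one, Real.Gamma_nat_eq_factorial]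
  have h7 : Real.log (m.factorial : ℝ) = Real.log m + Real.log (m'.factorial : ℝ) := by
    rw [hm', Nat.succ_eq_add_one, Nat.factorial_succ, Nat.cast_mul, Real.log_mul]
    · exact_mod_cast Nat.succ_ne_zero m'
    · exact_mod_cast Nat.factorial_ne_zero m'
  rw [h6] at h1
  have h2 := Real.log_le_log (by exact_mod_cast Nat.factorial_pos m') h1
  have h3 := STI_fac_low m (by omega)
  have h4 := STI_mono (a := x - 1) (b := (m : ℝ)) (by linarith) (by linarith)
  have h5 : Real.log m ≤ Real.log x := Real.log_le_log (by linarith) hmx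
  have h8 : Real.log (x / (x - 1)) ≤ x / (x - 1) - 1 := Real.log_le_sub_one_of_pos (by
    apply div_pos <;> linarith)
  rw [Real.log_div (by linarith) (by linarith)] at h8
  have h9 : (x - 1) * (Real.log x - Real.log (x - 1)) ≤ (x - 1) * (x / (x - 1) - 1) :=
    mul_le_mul_of_nonneg_left h8 (by linarith)
  have h10 : (x - 1) * (x / (x - 1) - 1) = 1 := by
    have : x - 1 ≠ 0 := by linarith
    field_simp
    ring
  nlinarith

theorem STI_inv : Tendsto (fun n : ℕ => 1 / (n : ℝ)) atTop (𝓝 0) :=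
  tendsto_const_div_atTop_nhds_zero_nat 1

theorem STI_logdiv : Tendsto (fun n : ℕ => Real.log n / (n : ℝ)) atTop (𝓝 0) := by
  have h := (Real.tendsto_pow_log_div_mul_add_atTop 1 0 1 one_ne_zero).comp
    (tendsto_natCast_atTop_atTop (R := ℝ))
  refine h.congr fun n => ?_
  show Real.log n ^ 1 / (1 * (n : ℝ) + 0) = _
  rw [pow_one, one_mul, add_zero]

theorem STI_r : Tendsto (fun n : ℕ => 1 / 2 + 1 / 2 * (1 / (n : ℝ))) atTop (𝓝 (1 / 2)) := by
  have h := (STI_inv.const_mul (1 / 2)).const_add (1 / 2)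
  rwa [mul_zero, add_zero] at h

theorem STI_E : Tendsto (fun n : ℕ => (Real.log (Real.Gamma (((n : ℝ) + 1) / 2)) -
    (((n : ℝ) + 1) / 2 * Real.log (((n : ℝ) + 1) / 2) - ((n : ℝ) + 1) / 2)) / n) atTop (𝓝 0) := by
  have h1 : Tendsto (fun n : ℕ => 2 * (Real.log n / (n : ℝ)) + 1 / (n : ℝ)) atTop (𝓝 0) := by
    have h := (STI_logdiv.const_mul 2).add STI_inv
    rwa [mul_zero, add_zero] at h
  refine squeeze_zero_norm' ?_ h1
  filter_upwards [eventually_ge_atTop 5] with n hn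
  have hn' : (5 : ℝ) ≤ n := by exact_mod_cast hn
  have hn0 : (0 : ℝ) < n := by linarith
  set x := ((n : ℝ) + 1) / 2 with hx
  have hx3 : 3 ≤ x := by rw [hx]; linarith
  have hxn : x ≤ n := by rw [hx]; linarith
  have hu := STI_up (x := x) (by linarith)
  have hl := STI_low hx3
  have hlog : Real.log x ≤ Real.log n := Real.log_le_log (by linarith) hxn
  have hlog0 : 0 ≤ Real.log x := Real.log_nonneg (by linarith)
  rw [Real.norm_eq_abs, abs_div, abs_of_pos hn0]
  have h2 : |Real.log (Real.Gamma x) - (x * Real.log x - x)| ≤ 2 * Real.log n + 1 := by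
    rw [abs_le]
    constructor <;> linarith
  calc |Real.log (Real.Gamma x) - (x * Real.log x - x)| / n ≤ (2 * Real.log n + 1) / n := by
        gcongr
    _ = 2 * (Real.log n / (n : ℝ)) + 1 / (n : ℝ) := by ring

theorem STI_vol_pos (n : ℕ) : 0 < sphereVol n := by
  unfold sphereVol
  have h1 : 0 < Real.Gamma (((n : ℝ) + 1) / 2) := Real.Gamma_pos_of_pos (by positivity)
  have h2 := Real.pi_pos
  positivity

theorem STI : STI_stmt := by
  have h1 : Tendsto (fun n : ℕ => -(1 / 2) * Real.log (1 / 2 + 1 / 2 * (1 / (n : ℝ))) +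
      1 / (n : ℝ) * Real.log 2 + (1 / 2 + 1 / 2 * (1 / (n : ℝ))) * (Real.log Real.pi + 1) -
      1 / 2 * (Real.log n / (n : ℝ)) -
      1 / 2 * (Real.log (1 / 2 + 1 / 2 * (1 / (n : ℝ))) * (1 / (n : ℝ))) -
      (Real.log (Real.Gamma (((n : ℝ) + 1) / 2)) -
    (((n : ℝ) + 1) / 2 * Real.log (((n : ℝ) + 1) / 2) - ((n : ℝ) + 1) / 2)) / n) atTop
      (𝓝 (-(1 / 2) * Real.log (1 / 2) + 0 * Real.log 2 + 1 / 2 * (Real.log Real.pi + 1) -
      1 / 2 * 0 - 1 / 2 * (Real.log (1 / 2) * 0) - 0)) := by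
    have hlr : Tendsto (fun n : ℕ => Real.log (1 / 2 + 1 / 2 * (1 / (n : ℝ)))) atTop
        (𝓝 (Real.log (1 / 2))) := STI_r.log (by norm_num)
    exact (((((hlr.const_mul _).add (STI_inv.mul_const _)).add (STI_r.mul_const _)).sub
      (STI_logdiv.const_mul _)).sub ((hlr.mul STI_inv).const_mul _)).sub STI_E
  have h2 := (Real.continuous_exp.tendsto _).comp h1
  have h3 : Real.exp (-(1 / 2) * Real.log (1 / 2) + 0 * Real.log 2 +
      1 / 2 * (Real.log Real.pi + 1) - 1 / 2 * 0 - 1 / 2 * (Real.log (1 / 2) * 0) - 0) =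
      Real.sqrt (2 * Real.pi * Real.exp 1) := by
    have hp := Real.pi_pos
    rw [Real.sqrt_eq_rpow, Real.rpow_def_of_pos (by positivity),
      Real.log_mul (by positivity) (Real.exp_pos _).ne', Real.log_mul (by norm_num) hp.ne',
      Real.log_exp, one_div, Real.log_inv]
    congr 1
    ring
  rw [h3] at h2
  unfold STI_stmt
  refine h2.congr' ?_
  filter_upwards [eventually_ge_atTop 5] with n hn
  have hn' : (5 : ℝ) ≤ n := by exact_mod_cast hn
  have hn0 : (0 : ℝ) < n := by linarith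
  have hV := STI_vol_pos n
  have hG : 0 < Real.Gamma (((n : ℝ) + 1) / 2) := Real.Gamma_pos_of_pos (by positivity)
  have h4 : Real.sqrt n * (sphereVol n) ^ ((1 : ℝ) / n) =
      Real.exp (1 / 2 * Real.log n + 1 / n * Real.log (sphereVol n)) := by
    rw [Real.exp_add, Real.sqrt_eq_rpow, Real.rpow_def_of_pos hn0, Real.rpow_def_of_pos hV,
      mul_comm (Real.log n), mul_comm (Real.log (sphereVol n))]
  rw [h4]
  show Real.exp _ = _
  congr 1
  have h5 : Real.log (sphereVol n) = Real.log 2 + ((n : ℝ) + 1) / 2 * Real.log Real.pi -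
      Real.log (Real.Gamma (((n : ℝ) + 1) / 2)) := by
    unfold sphereVol
    rw [Real.log_div (by have := Real.pi_pos; positivity) hG.ne',
      Real.log_mul (by norm_num) (by have := Real.pi_pos; positivity), Real.log_rpow Real.pi_pos]
  have h6 : ((n : ℝ) + 1) / 2 = n * (1 / 2 + 1 / 2 * (1 / (n : ℝ))) := by
    field_simp
  have h7 : Real.log (((n : ℝ) + 1) / 2) =
      Real.log n + Real.log (1 / 2 + 1 / 2 * (1 / (n : ℝ))) := by
    rw [h6, Real.log_mul hn0.ne' (by positivity)]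
  rw [h5]
  beta_reduce
  rw [h7]
  generalize Real.log (1 / 2 + 1 / 2 * (1 / (n : ℝ))) = a
  generalize Real.log (Real.Gamma (((n : ℝ) + 1) / 2)) = b
  field_simp
  ring

end Pool.Agent.CRO
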